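import Pool.Agent.MP_fb3574_al.H54.Chain

/-!
Explicit form: every FC-group is a section of a restricted direct product of groups with finite
derived subgroup, and the factors can be taken periodic when the group is periodic.
-/

set_option autoImplicit false

namespace Pool.Agent.MP_fb3574_al.H90

open Subgroup Pool.Agent.MP_fb3574_al.H54

/-- Sections of restricted direct products of groups from the class `Y`. -/
def Sec (Y : ∀ (G : Type) [Group G], Prop) (G : Type) [Group G] : Prop :=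
  ∃ (ι : Type) (P : ι → Type) (_ : ∀ i, Group (P i)), (∀ i, Y (P i)) ∧
    ∃ H : Subgroup (∀ i, P i), (∀ x ∈ H, {i | x i ≠ 1}.Finite) ∧
      ∃ f : H →* G, Function.Surjective f

variable {Y : ∀ (G : Type) [Group G], Prop}

theorem Sec.surj {G K : Type} [Group G] [Group K] (h : Sec Y G) (φ : G →* K)
    (hφ : Function.Surjective φ) : Sec Y K := by
  obtain ⟨ι, P, i, h1, H, h2, f, hf⟩ := h
  exact ⟨ι, P, i, h1, H, h2, φ.comp f, hφ.comp hf⟩

theorem Sec.sub {G : Type} [Group G] (h : Sec Y G) (K : Subgroup G) : Sec Y K := by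
  obtain ⟨ι, P, i, h1, H, h2, f, hf⟩ := h
  let e := Subgroup.equivMapOfInjective (K.comap f) H.subtype H.subtype_injective
  refine ⟨ι, P, i, h1, (K.comap f).map H.subtype, ?_,
    ((f.comp (K.comap f).subtype).codRestrict K fun x => x.2).comp e.symm.toMonoidHom, ?_⟩
  · rintro x ⟨y, -, rfl⟩
    exact h2 _ y.2
  · rintro ⟨k, hk⟩
    obtain ⟨y, rfl⟩ := hf k
    exact ⟨e ⟨y, hk⟩,
      Subtype.ext (congrArg (fun z : K.comap f => f z.1) (e.symm_apply_apply ⟨y, hk⟩))⟩

theorem Sec.of_mem {G : Type} [Group G] (h : Y G) : Sec Y G :=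
  ⟨Unit, fun _ => G, fun _ => inferInstance, fun _ => h, ⊤, fun _ _ => Set.toFinite _,
    (Pi.evalMonoidHom (fun _ : Unit => G) ()).comp (⊤ : Subgroup (Unit → G)).subtype,
    fun g => ⟨⟨fun _ => g, trivial⟩, rfl⟩⟩

theorem finite_of_mem_iSup {ι : Type} [DecidableEq ι] (G : ι → Type) [∀ i, Group (G i)]
    {x : ∀ i, G i} (hx : x ∈ ⨆ i, (MonoidHom.mulSingle G i).range) : {i | x i ≠ 1}.Finite := by
  refine Subgroup.iSup_induction (C := fun x => {i | x i ≠ 1}.Finite) _ hx ?_ (by simp) ?_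
  · rintro i _ ⟨a, rfl⟩
    refine (Set.finite_singleton i).subset fun j hj => ?_
    by_contra hne
    exact hj (Pi.mulSingle_eq_of_ne hne a)
  · intro a b ha hb
    refine (ha.union hb).subset fun j hj => ?_
    by_contra hne
    simp only [Set.mem_union, Set.mem_ofPred_eq, not_or, not_not] at hne
    exact hj (by simp [hne.1, hne.2])

theorem Sec.prod {ι : Type} [DecidableEq ι] (G : ι → Type) [∀ i, Group (G i)]
    (h : ∀ i, Sec Y (G i)) : Sec Y ↥(⨆ i, (MonoidHom.mulSingle G i).range) := by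
  classical
  choose κ P inst h1 H h2 f hf using h
  let K : Subgroup (∀ s : Σ i, κ i, P s.1 s.2) :=
    { carrier := {x | (∀ i, (fun j => x ⟨i, j⟩) ∈ H i) ∧ {s | x s ≠ 1}.Finite}
      one_mem' := ⟨fun i => one_mem (H i), by simp⟩
      mul_mem' := fun {a b} ha hb => ⟨fun i => mul_mem (ha.1 i) (hb.1 i),
        (ha.2.union hb.2).subset fun s hs => by
          by_contra hne
          simp only [Set.mem_union, Set.mem_ofPred_eq, not_or, not_not] at hne
          exact hs (by simp [hne.1, hne.2])⟩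
      inv_mem' := fun {a} ha => ⟨fun i => inv_mem (ha.1 i), by simpa using ha.2⟩ }
  let F : K →* ∀ i, G i :=
    { toFun := fun x i => f i ⟨fun j => x.1 ⟨i, j⟩, x.2.1 i⟩
      map_one' := funext fun i => map_one (f i)
      map_mul' := fun a b => funext fun i => map_mul (f i) ⟨_, a.2.1 i⟩ ⟨_, b.2.1 i⟩ }
  have hF : ∀ x, F x ∈ ⨆ i, (MonoidHom.mulSingle G i).range := fun x => by
    refine mem_iSup_of_finite G (x.2.2.image Sigma.fst).toFinset _ fun i hi => ?_
    have : (⟨fun j => x.1 ⟨i, j⟩, x.2.1 i⟩ : H i) = 1 := Subtype.ext (funext fun j => by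
      by_contra hne
      exact hi (by simpa using ⟨j, hne⟩))
    change f i _ = 1
    rw [this, map_one]
  refine ⟨Σ i, κ i, fun s => P s.1 s.2, inferInstance, fun s => h1 _ _, K, fun x hx => hx.2,
    F.codRestrict _ hF, ?_⟩
  rintro ⟨g, hg⟩
  have hc : ∀ i, ∃ y : H i, f i y = g i ∧ (g i = 1 → y = 1) := fun i => by
    by_cases e : g i = 1
    · exact ⟨1, by rw [map_one, e], fun _ => rfl⟩
    · obtain ⟨y, hy⟩ := hf i (g i)
      exact ⟨y, hy, fun e' => absurd e' e⟩
  choose y hy hy' using hc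
  refine ⟨⟨fun s => (y s.1).1 s.2, fun i => (y i).2, ?_⟩, Subtype.ext (funext fun i => hy i)⟩
  refine ((finite_of_mem_iSup G hg).biUnion
    fun i _ => (h2 i _ (y i).2).image (Sigma.mk i)).subset fun s hs => ?_
  simp only [Set.mem_iUnion]
  refine ⟨s.1, fun e => hs ?_, s.2, hs, rfl⟩
  change (y s.1).1 s.2 = 1
  rw [hy' _ e]; rfl

/-- A complement up to torsion in an abelian group. -/
theorem exists_compl {A : Type} [CommGroup A] (M B₀ : Subgroup A) (h0 : B₀ ≤ M)
    (hM : ∀ m ∈ M, ∃ n : ℕ, 0 < n ∧ m ^ n ∈ B₀) :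
    ∃ B : Subgroup A, B ⊓ M = B₀ ∧ ∀ a : A, ∃ n : ℕ, 0 < n ∧ a ^ n ∈ B := by
  obtain ⟨B, -, hB⟩ := zorn_le_nonempty₀ {B : Subgroup A | B ⊓ M = B₀}
    (fun c hc hch y hy => ⟨sSup c, le_antisymm (fun x hx => by
        obtain ⟨s, hs, hxs⟩ := (Subgroup.mem_sSup_of_directedOn ⟨y, hy⟩ hch.directedOn).1 hx.1
        rw [← hc hs]; exact ⟨hxs, hx.2⟩)
      (by rw [← hc hy]; exact inf_le_inf_right _ (le_sSup hy)), fun z hz => le_sSup hz⟩)
    B₀ (inf_eq_left.2 h0)
  have h1 : B ⊓ M = B₀ := hB.prop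
  have hB0 : B₀ ≤ B := h1 ▸ inf_le_left
  refine ⟨B, h1, fun a => ?_⟩
  by_cases ha : (B ⊔ zpowers a) ⊓ M = B₀
  · exact ⟨1, one_pos, by
      simpa using hB.le_of_ge ha le_sup_left (mem_sup_right (mem_zpowers a))⟩
  · have : ∃ m ∈ (B ⊔ zpowers a) ⊓ M, m ∉ B₀ := by
      by_contra hne
      push Not at hne
      exact ha (le_antisymm hne (le_inf (hB0.trans le_sup_left) h0))
    obtain ⟨m, ⟨hm1, hm2⟩, hm3⟩ := this
    obtain ⟨b, hb, c, ⟨k, rfl⟩, rfl⟩ := Subgroup.mem_sup.1 hm1
    obtain ⟨n, hn, hmn⟩ := hM _ hm2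
    have hk : k ≠ 0 := by
      rintro rfl
      exact hm3 (h1 ▸ ⟨by simpa using hb, hm2⟩)
    have h2 : (a ^ k) ^ n ∈ B := by
      have := mul_mem (inv_mem (pow_mem hb n)) (hB0 hmn)
      rwa [mul_pow, inv_mul_cancel_left] at this
    refine ⟨k.natAbs * n, Nat.mul_pos (Int.natAbs_pos.2 hk) hn, ?_⟩
    rcases Int.natAbs_eq k with e | e
    · rw [e, zpow_natCast] at h2; rwa [pow_mul]
    · rw [e, zpow_neg, zpow_natCast, inv_pow] at h2; rw [pow_mul]; exact inv_mem_iff.1 h2

theorem pow_mem_center {G : Type} [Group G] [Finite (commutator G)] (x : G) :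
    ∃ n : ℕ, 0 < n ∧ x ^ n ∈ center G := by
  let φ : G →* Equiv.Perm (commutator G) :=
    (MulAut.toPerm _).comp (MulAut.conjNormal (H := commutator G))
  obtain ⟨a, ha, e⟩ := (isOfFinOrder_of_finite (φ x)).exists_pow_eq_one
  have hc : ∀ c ∈ commutator G, x ^ a * c * (x ^ a)⁻¹ = c := fun c hc =>
    congrArg (fun p : Equiv.Perm (commutator G) => (p ⟨c, hc⟩ : G)) ((map_pow φ x a).trans e)
  refine ⟨a * Nat.card (commutator G), Nat.mul_pos ha Nat.card_pos, mem_center_iff.2 fun y => ?_⟩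
  set u := x ^ a
  have hm : u⁻¹ * (y * u * y⁻¹) ∈ commutator G := by
    simpa [commutatorElement_def, mul_assoc] using comm_mem_commutator u⁻¹ y
  set c := u⁻¹ * (y * u * y⁻¹) with hcd
  have hcu : Commute u c := by
    have := hc c hm
    rw [mul_inv_eq_iff_eq_mul] at this
    exact this
  have h1 : c ^ Nat.card (commutator G) = 1 :=
    congrArg Subtype.val (pow_card_eq_one' (x := (⟨c, hm⟩ : commutator G)))
  have h2 : y * u * y⁻¹ = u * c := by rw [hcd, mul_inv_cancel_left]
  have h3 : y * u ^ Nat.card (commutator G) * y⁻¹ = u ^ Nat.card (commutator G) := by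
    rw [← conj_pow, h2, hcu.mul_pow, h1, mul_one]
  rw [pow_mul]
  exact mul_inv_eq_iff_eq_mul.1 h3

/-- Periodic groups with finite derived subgroup. -/
def PF (G : Type) [Group G] : Prop := Finite (commutator G) ∧ ∀ x : G, IsOfFinOrder x

theorem finite_comm_surj {G K : Type} [Group G] [Group K] (φ : G →* K)
    (hφ : Function.Surjective φ) [Finite (commutator G)] : Finite (commutator K) := by
  have : (commutator G).map φ = commutator K := by
    rw [commutator_def, map_commutator, ← MonoidHom.range_eq_map, MonoidHom.range_eq_top.2 hφ,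
      commutator_def]
  rw [← this]
  exact Finite.of_surjective _ (φ.subgroupMap_surjective _)

theorem tors_quot {G : Type} [Group G] (N : Subgroup G) [N.Normal]
    (h : ∀ a : G, ∃ n : ℕ, 0 < n ∧ a ^ n ∈ N) (x : G ⧸ N) : IsOfFinOrder x := by
  obtain ⟨a, rfl⟩ := QuotientGroup.mk_surjective x
  obtain ⟨n, hn, e⟩ := h a
  exact isOfFinOrder_iff_pow_eq_one.2
    ⟨n, hn, by rw [← QuotientGroup.mk_pow, QuotientGroup.eq_one_iff]; exact e⟩

theorem Sec.inj {G K : Type} [Group G] [Group K] (h : Sec Y K) (φ : G →* K)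
    (hφ : Function.Injective φ) : Sec Y G :=
  (h.sub φ.range).surj (MonoidHom.ofInjective hφ).symm.toMonoidHom
    (MonoidHom.ofInjective hφ).symm.surjective

theorem Sec.prod2 {A B : Type} [Group A] [Group B] (hA : Sec Y A) (hB : Sec Y B) :
    Sec Y (A × B) := by
  have hP : ∀ b, Sec Y (fam A B b) := fun b => by cases b; exact hB; exact hA
  let f : A × B →* ∀ b, fam A B b :=
    { toFun := famMk
      map_one' := by funext b; cases b <;> rfl
      map_mul' := by intro x y; funext b; cases b <;> rfl }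
  refine (Sec.prod (fam A B) hP).inj
    (f.codRestrict _ fun x => mem_iSup_of_finite _ Finset.univ _ (by simp)) fun x y hxy => ?_
  have := congrArg Subtype.val hxy
  exact Prod.ext (congrFun this true) (congrFun this false)

/-- The class of the periodic factors together with the abelian groups. -/
def PA (G : Type) [Group G] : Prop := PF G ∨ ∀ a b : G, a * b = b * a

theorem sec_PA_of_finite (G : Type) [Group G] (h : Finite (commutator G)) : Sec PA G := by
  let _ : CommGroup (center G) :=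
    { (inferInstance : Group (center G)) with
      mul_comm := fun a b => Subtype.ext (mem_center_iff.1 b.2 a) }
  obtain ⟨B, h1, h2⟩ := exists_compl (A := center G) ((commutator G).subgroupOf (center G)) ⊥
    bot_le fun m hm => ⟨Nat.card (commutator G), Nat.card_pos, by
      have : (m : G) ^ Nat.card (commutator G) = 1 :=
        congrArg Subtype.val (pow_card_eq_one' (x := (⟨m.1, hm⟩ : commutator G)))
      rw [mem_bot]
      exact Subtype.ext this⟩
  let Z := B.map (center G).subtype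
  have : Z.Normal := ⟨by
    rintro _ ⟨b, hb, rfl⟩ g
    refine ⟨b, hb, ?_⟩
    rw [subtype_apply, mem_center_iff.1 b.2 g, mul_inv_cancel_right]⟩
  have hZ : Sec PA (G ⧸ Z) := Sec.of_mem (Or.inl
    ⟨finite_comm_surj _ (QuotientGroup.mk'_surjective Z), tors_quot Z fun a => by
      obtain ⟨n, hn, e⟩ := pow_mem_center a
      obtain ⟨m, hm, e'⟩ := h2 ⟨_, e⟩
      exact ⟨n * m, Nat.mul_pos hn hm, ⟨_, e', by simp [pow_mul]⟩⟩⟩)
  have hA : Sec PA (Abelianization G) := Sec.of_mem (Or.inr mul_comm)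
  refine (hZ.prod2 hA).inj ((QuotientGroup.mk' Z).prod Abelianization.of) ?_
  rw [injective_iff_map_eq_one]
  intro x hx
  obtain ⟨b, hb, rfl⟩ : x ∈ Z := (QuotientGroup.eq_one_iff _).1 (congrArg Prod.fst hx)
  have hc : (b : G) ∈ commutator G := by
    rw [← Abelianization.ker_of]; exact congrArg Prod.snd hx
  have : b ∈ B ⊓ (commutator G).subgroupOf (center G) := ⟨hb, hc⟩
  rw [h1, mem_bot] at this
  rw [this, map_one]

theorem dv_sec (hY : ∀ (G : Type) [Group G], Finite (commutator G) → Sec Y G) : DV (Sec Y) where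
  iso _ _ _ _ e h := h.surj e.toMonoidHom e.surjective
  sub _ _ H h := h.sub H
  quot _ _ N _ h := h.surj _ (QuotientGroup.mk'_surjective N)
  prod _ _ G _ h := Sec.prod G h
  fin := hY

theorem sec_of_fc (G : Type) [Group G] (hG : FC G) :
    Sec (fun P _ => Finite (commutator P)) G :=
  (dv_sec fun _ _ h => Sec.of_mem h).of_fc _ G hG rfl

theorem sec_periodic (G : Type) [Group G] (hG : FC G) (ht : ∀ g : G, IsOfFinOrder g) :
    Sec PF G := by
  classical
  obtain ⟨ι, P, inst, h1, H, h2, f, hf⟩ := (dv_sec sec_PA_of_finite).of_fc _ G hG rfl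
  let Q : {i // PF (P i)} → Type := fun i => P i.1
  let R := ⨆ i, (MonoidHom.mulSingle Q i).range
  let A := ∀ i : {i // ¬ PF (P i)}, P i.1
  let _ : CommGroup A :=
    { (inferInstance : Group A) with
      mul_comm := fun a b => funext fun i => (h1 i.1).resolve_left i.2 _ _ }
  let p₀ : H →* ∀ i, Q i := MonoidHom.pi fun i => (Pi.evalMonoidHom P i.1).comp H.subtype
  have hp : ∀ x, p₀ x ∈ R := fun x =>
    mem_iSup_of_finite Q ((h2 _ x.2).preimage Subtype.val_injective.injOn).toFinset _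
      fun i hi => by
        have : x.1 i.1 = 1 := by simpa using hi
        exact this
  let p : H →* R := p₀.codRestrict _ hp
  let q : H →* A := MonoidHom.pi fun i => (Pi.evalMonoidHom P i.1).comp H.subtype
  have hinj : ∀ x, p x = 1 → q x = 1 → x = 1 := fun x a b => Subtype.ext (funext fun i => by
    by_cases hi : PF (P i)
    · exact congrFun (congrArg Subtype.val a) ⟨i, hi⟩
    · exact congrFun b ⟨i, hi⟩)
  obtain ⟨B, hB1, hB2⟩ := exists_compl (p.ker.map q) ((p.ker ⊓ f.ker).map q)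
    (map_mono inf_le_left) (by
      rintro _ ⟨x, hx, rfl⟩
      obtain ⟨n, hn, e⟩ := isOfFinOrder_iff_pow_eq_one.1 (ht (f x))
      exact ⟨n, hn, x ^ n, ⟨pow_mem hx n, MonoidHom.mem_ker.2 (by rw [map_pow, e])⟩, map_pow q x n⟩)
  have hR : Sec PF R := Sec.prod Q fun i => Sec.of_mem i.2
  have hA : Sec PF (A ⧸ B) := Sec.of_mem ⟨by
    rw [commutator_eq_bot]; infer_instance, tors_quot B hB2⟩
  let ψ : H →* R × (A ⧸ B) := p.prod ((QuotientGroup.mk' B).comp q)
  have hker : ψ.ker ≤ f.ker := fun x hx => by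
    have a : p x = 1 := congrArg Prod.fst hx
    have b : q x ∈ B := (QuotientGroup.eq_one_iff _).1 (congrArg Prod.snd hx)
    have : q x ∈ B ⊓ p.ker.map q := ⟨b, x, a, rfl⟩
    rw [hB1] at this
    obtain ⟨y, ⟨hy1, hy2⟩, e⟩ := this
    have : y⁻¹ * x = 1 := hinj _ (by rw [map_mul, map_inv, a, hy1, inv_one, one_mul])
      (by rw [map_mul, map_inv, e, inv_mul_cancel])
    rw [inv_mul_eq_one] at this
    exact this ▸ hy2
  refine ((hR.prod2 hA).inj (QuotientGroup.kerLift ψ) (QuotientGroup.kerLift_injective ψ)).surj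
    (QuotientGroup.lift _ f hker) fun g => ?_
  obtain ⟨x, rfl⟩ := hf g
  exact ⟨x, rfl⟩

end Pool.Agent.MP_fb3574_al.H90
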